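import Pool.Agent.W889.SR.Stm

/-!
# Project SR, part ORB: orbits are definable
-/

set_option autoImplicit false

namespace Pool.Agent.W882.SR

open Set Ordinal Pool.Agent.W889.SR

/-! ### quantifier-free definability -/

section QDdef

variable {M : Type} (s : M → M → Prop)

/-- defined by a quantifier-free formula -/
def QD {n : ℕ} (R : (Fin n → M) → Prop) : Prop := ∃ φ : QF n, ∀ v, φ.Realize s v ↔ R v

variable {s}

theorem QD.congr {n : ℕ} {R R' : (Fin n → M) → Prop} (h : QD s R) (e : ∀ v, R v ↔ R' v) :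
    QD s R' := by
  obtain ⟨φ, hφ⟩ := h
  exact ⟨φ, fun v => (hφ v).trans (e v)⟩

theorem QD.and {n : ℕ} {R R' : (Fin n → M) → Prop} (h : QD s R) (h' : QD s R') :
    QD s (fun v => R v ∧ R' v) := by
  obtain ⟨φ, hφ⟩ := h
  obtain ⟨ψ, hψ⟩ := h'
  exact ⟨.and φ ψ, fun v => and_congr (hφ v) (hψ v)⟩

theorem QD.neg {n : ℕ} {R : (Fin n → M) → Prop} (h : QD s R) : QD s (fun v => ¬ R v) := by
  obtain ⟨φ, hφ⟩ := h
  exact ⟨.neg φ, fun v => not_congr (hφ v)⟩

theorem QD.tru {n : ℕ} : QD s (fun _ : Fin n → M => True) := ⟨.tru, fun _ => Iff.rfl⟩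

theorem QD.le {n : ℕ} (i j : Fin n) : QD s (fun v => s (v i) (v j)) := ⟨.le i j, fun _ => Iff.rfl⟩

theorem QD.eq {n : ℕ} (i j : Fin n) : QD s (fun v : Fin n → M => v i = v j) :=
  ⟨.eq i j, fun _ => Iff.rfl⟩

theorem QD.const {n : ℕ} (p : Prop) : QD s (fun _ : Fin n → M => p) := by
  by_cases hp : p
  · exact QD.tru.congr fun _ => by simp [hp]
  · exact (QD.tru.neg).congr fun _ => by simp [hp]

theorem QD.imp {n : ℕ} {R R' : (Fin n → M) → Prop} (h : QD s R) (h' : QD s R') :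
    QD s (fun v => R v → R' v) :=
  (h.and h'.neg).neg.congr fun v => by simp only [not_and, not_not]

theorem QD.all {n : ℕ} : ∀ {m : ℕ} (R : Fin m → (Fin n → M) → Prop), (∀ i, QD s (R i)) →
    QD s (fun v => ∀ i, R i v) := by
  intro m
  induction m with
  | zero => exact fun R _ => QD.tru.congr fun v => by simp
  | succ m ih =>
    intro R h
    exact ((h 0).and (ih (fun i => R i.succ) fun i => h i.succ)).congr fun v =>
      (Fin.forall_fin_succ (P := fun i => R i v)).symm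

theorem QD.ex {n m : ℕ} (R : Fin m → (Fin n → M) → Prop) (h : ∀ i, QD s (R i)) :
    QD s (fun v => ∃ i, R i v) :=
  (QD.all (fun i v => ¬ R i v) fun i => (h i).neg).neg.congr fun v => by
    simp only [not_forall, not_not]

end QDdef

/-! ### definability by `Σ` formulas -/

section SDdef

variable {M : Type} {s : M → M → Prop}

theorem sd_congr {γ : Ordinal.{0}} {n : ℕ} {R R' : (Fin n → M) → Prop} (h : SigDef s γ R)
    (e : ∀ v, R v ↔ R' v) : SigDef s γ R' := by
  obtain ⟨φ, h1, h2⟩ := h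
  exact ⟨φ, h1, fun v => (h2 v).trans (e v)⟩

theorem sd_qf {γ : Ordinal.{0}} {n : ℕ} {R : (Fin n → M) → Prop} (h : QD s R) :
    SigDef s γ R := by
  obtain ⟨φ, hφ⟩ := h
  refine ⟨.qf φ, ?_, fun v => ?_⟩
  · unfold Fml.IsSigma
    simp only [Fml.Lv]
  · simp only [Fml.Realize]
    exact hφ v

theorem pd_qf {γ : Ordinal.{0}} {n : ℕ} {R : (Fin n → M) → Prop} (h : QD s R) :
    PiDef s γ R := by
  obtain ⟨φ, hφ⟩ := h
  refine ⟨.qf φ, ?_, fun v => ?_⟩
  · unfold Fml.IsPi
    simp only [Fml.Lv]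
  · simp only [Fml.Realize]
    exact hφ v

theorem sd_lift (hF : FM) {β γ : Ordinal.{0}} (h : β < γ) {n : ℕ} {R : (Fin n → M) → Prop}
    (hR : PiDef s β R) : SigDef s γ R := by
  obtain ⟨φ, hφ, hv⟩ := hR
  obtain ⟨φ', h1, h2⟩ := hF.lift n φ false
  exact ⟨φ', h1 β γ h hφ, fun v => (h2 M s v).trans (hv v)⟩

theorem sd_and (hF : FM) {γ : Ordinal.{0}} {n : ℕ} {R R' : (Fin n → M) → Prop}
    (h : SigDef s γ R) (h' : SigDef s γ R') : SigDef s γ (fun v => R v ∧ R' v) := by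
  obtain ⟨φ, hφ, hv⟩ := h
  obtain ⟨ψ, hψ, hv'⟩ := h'
  obtain ⟨χ, h1, h2⟩ := hF.and true γ n φ ψ hφ hψ
  exact ⟨χ, h1, fun v => (h2 M s v).trans (and_congr (hv v) (hv' v))⟩

theorem sd_all (hF : FM) {γ : Ordinal.{0}} {n : ℕ} : ∀ {m : ℕ} (R : Fin m → (Fin n → M) → Prop),
    (∀ i, SigDef s γ (R i)) → SigDef s γ (fun v => ∀ i, R i v) := by
  intro m
  induction m with
  | zero => exact fun R _ => sd_congr (sd_qf QD.tru) fun v => by simp
  | succ m ih =>
    intro R h
    exact sd_congr (sd_and hF (h 0) (ih (fun i => R i.succ) fun i => h i.succ)) fun v =>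
      (Fin.forall_fin_succ (P := fun i => R i v)).symm

theorem sd_re (hF : FM) {γ : Ordinal.{0}} {n m : ℕ} (u : Fin n → Fin m)
    {R : (Fin n → M) → Prop} (h : SigDef s γ R) :
    SigDef s γ (fun v : Fin m → M => R (v ∘ u)) := by
  obtain ⟨φ, hφ, hv⟩ := h
  obtain ⟨χ, h1, h2⟩ := hF.re n m u φ
  exact ⟨χ, h1 true γ hφ, fun v => (h2 M s v).trans (hv _)⟩

theorem pd_re (hF : FM) {γ : Ordinal.{0}} {n m : ℕ} (u : Fin n → Fin m)
    {R : (Fin n → M) → Prop} (h : PiDef s γ R) :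
    PiDef s γ (fun v : Fin m → M => R (v ∘ u)) := by
  obtain ⟨φ, hφ, hv⟩ := h
  obtain ⟨χ, h1, h2⟩ := hF.re n m u φ
  exact ⟨χ, h1 false γ hφ, fun v => (h2 M s v).trans (hv _)⟩

theorem sd_ex (hF : FM) {γ : Ordinal.{0}} (hγ : 1 ≤ γ) {n k : ℕ}
    {R : (Fin (n + k) → M) → Prop} (h : SigDef s γ R) :
    SigDef s γ (fun v : Fin n → M => ∃ w : Fin k → M, R (Fin.append v w)) := by
  obtain ⟨φ, hφ, hv⟩ := h
  obtain ⟨χ, h1, h2⟩ := hF.ex γ hγ n k φ hφ
  exact ⟨χ, h1, fun v => (h2 M s v).trans (exists_congr fun w => hv _)⟩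

theorem pd_all (hF : FM) {γ : Ordinal.{0}} (hγ : 1 ≤ γ) {n k : ℕ}
    {R : (Fin (n + k) → M) → Prop} (h : PiDef s γ R) :
    PiDef s γ (fun v : Fin n → M => ∀ w : Fin k → M, R (Fin.append v w)) := by
  obtain ⟨φ, hφ, hv⟩ := h
  obtain ⟨χ, h1, h2⟩ := hF.all γ hγ n k φ hφ
  exact ⟨χ, h1, fun v => (h2 M s v).trans (forall_congr' fun w => hv _)⟩

end SDdef

/-! ### enumeration of finite downward closed sets -/

section Tree

variable {s : ℕ → ℕ → Prop}

theorem pred_lt (hs : IsTree s) {x y : ℕ} (h : s x y) (hne : x ≠ y) :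
    {z | s z x}.ncard < {z | s z y}.ncard := by
  refine Set.ncard_lt_ncard ⟨fun z hz => hs.trans _ _ _ hz h, fun hsub => ?_⟩ (hs.fin y)
  exact hne (hs.antisymm _ _ h (hsub (hs.refl y)))

theorem enum (hs : IsTree s) : ∀ (N : ℕ) (D : Finset ℕ), D.card = N →
    (∀ x ∈ D, ∀ y, s y x → y ∈ D) → ∃ (m : ℕ) (F : Fin m → ℕ), Function.Injective F ∧
      (∀ x, x ∈ D ↔ ∃ i, F i = x) ∧ ∀ i y, s y (F i) → ∃ j, j ≤ i ∧ F j = y := by
  intro N
  induction N with
  | zero =>
    intro D hD _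
    rw [Finset.card_eq_zero] at hD
    subst hD
    exact ⟨0, Fin.elim0, fun i => i.elim0, fun x => by simp, fun i => i.elim0⟩
  | succ N ih =>
    intro D hD hdc
    have hne : D.Nonempty := by
      rw [← Finset.card_pos]; omega
    obtain ⟨x, hx, hmax⟩ := Finset.exists_max_image D (fun x => {z | s z x}.ncard) hne
    have hdc' : ∀ z ∈ D.erase x, ∀ y, s y z → y ∈ D.erase x := by
      intro z hz y hy
      rw [Finset.mem_erase] at hz ⊢
      refine ⟨?_, hdc z hz.2 y hy⟩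
      rintro rfl
      have := pred_lt hs hy (Ne.symm hz.1)
      exact absurd (hmax z hz.2) (not_le.2 this)
    obtain ⟨m, F, hF1, hF2, hF3⟩ := ih (D.erase x) (by rw [Finset.card_erase_of_mem hx]; omega) hdc'
    have hFx : ∀ i, F i ≠ x := fun i h => by
      have := (hF2 (F i)).2 ⟨i, rfl⟩
      rw [h] at this
      exact Finset.notMem_erase x D this
    refine ⟨m + 1, Fin.snoc (α := fun _ => ℕ) F x, ?_, ?_, ?_⟩
    · intro i j
      refine Fin.lastCases ?_ (fun i => ?_) i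
      · refine Fin.lastCases ?_ (fun j => ?_) j
        · intro _; rfl
        · intro h
          rw [Fin.snoc_last, Fin.snoc_castSucc] at h
          exact absurd h.symm (hFx j)
      · refine Fin.lastCases ?_ (fun j => ?_) j
        · intro h
          rw [Fin.snoc_last, Fin.snoc_castSucc] at h
          exact absurd h (hFx i)
        · intro h
          rw [Fin.snoc_castSucc, Fin.snoc_castSucc] at h
          rw [hF1 h]
    · intro z
      constructor
      · intro hz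
        by_cases hzx : z = x
        · exact ⟨Fin.last m, by rw [Fin.snoc_last, hzx]⟩
        · obtain ⟨i, hi⟩ := (hF2 z).1 (Finset.mem_erase.2 ⟨hzx, hz⟩)
          exact ⟨i.castSucc, by rw [Fin.snoc_castSucc, hi]⟩
      · rintro ⟨i, hi⟩
        revert hi
        refine Fin.lastCases ?_ (fun i => ?_) i
        · intro hi
          rw [Fin.snoc_last] at hi
          rw [← hi]; exact hx
        · intro hi
          rw [Fin.snoc_castSucc] at hi
          exact Finset.mem_of_mem_erase ((hF2 z).2 ⟨i, hi⟩)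
    · intro i y
      refine Fin.lastCases ?_ (fun i => ?_) i
      · intro h
        rw [Fin.snoc_last] at h
        by_cases hy : y = x
        · exact ⟨Fin.last m, le_rfl, by rw [Fin.snoc_last, hy]⟩
        · obtain ⟨j, hj⟩ := (hF2 y).1 (Finset.mem_erase.2 ⟨hy, hdc x hx y h⟩)
          exact ⟨j.castSucc, Fin.le_last _, by rw [Fin.snoc_castSucc, hj]⟩
      · intro h
        rw [Fin.snoc_castSucc] at h
        obtain ⟨j, hj, hjy⟩ := hF3 i y h
        exact ⟨j.castSucc, Fin.castSucc_le_castSucc_iff.2 hj, by rw [Fin.snoc_castSucc, hjy]⟩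

theorem enum' (hs : IsTree s) {n : ℕ} (a : Fin n → ℕ) :
    ∃ (m : ℕ) (F : Fin m → ℕ) (w : Fin n → Fin m), Function.Injective F ∧
      (∀ i y, s y (F i) → ∃ j, j ≤ i ∧ F j = y) ∧ ∀ i, F (w i) = a i := by
  classical
  have hfin : (⋃ i, {y | s y (a i)}).Finite := Set.finite_iUnion fun i => hs.fin (a i)
  obtain ⟨m, F, h1, h2, h3⟩ := enum hs _ hfin.toFinset rfl (by
    intro x hx y hy
    rw [Set.Finite.mem_toFinset, Set.mem_iUnion] at hx ⊢
    obtain ⟨i, hi⟩ := hx
    exact ⟨i, hs.trans _ _ _ hy hi⟩)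
  have h4 : ∀ i, ∃ j, F j = a i := fun i => (h2 (a i)).1 (by
    rw [Set.Finite.mem_toFinset, Set.mem_iUnion]
    exact ⟨i, hs.refl _⟩)
  choose w hw using h4
  exact ⟨m, F, w, h1, h3, hw⟩

/-- the number of predecessors is the same -/
theorem ncard_eq {m : ℕ} {F F' : Fin m → ℕ} (hF : Function.Injective F)
    (h : SameQf s F s F') (h1 : ∀ i y, s y (F i) → ∃ j, j ≤ i ∧ F j = y)
    (h2 : ∀ i y, s y (F' i) → ∃ j, j ≤ i ∧ F' j = y) (i : Fin m) :
    {z | s z (F i)}.ncard = {z | s z (F' i)}.ncard := by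
  have hF' : Function.Injective F' := fun j k hjk => hF ((h.2 j k).2 hjk)
  have e1 : {z | s z (F i)} = F '' {j | s (F j) (F i)} := by
    ext z
    constructor
    · intro hz
      obtain ⟨j, -, rfl⟩ := h1 i z hz
      exact ⟨j, hz, rfl⟩
    · rintro ⟨j, hj, rfl⟩
      exact hj
  have e2 : {z | s z (F' i)} = F' '' {j | s (F j) (F i)} := by
    ext z
    constructor
    · intro hz
      obtain ⟨j, -, rfl⟩ := h2 i z hz
      exact ⟨j, (h.1 j i).2 hz, rfl⟩
    · rintro ⟨j, hj, rfl⟩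
      exact (h.1 j i).1 hj
  rw [e1, e2, Set.ncard_image_of_injective _ hF, Set.ncard_image_of_injective _ hF']

theorem incomp (hs : IsTree s) {x y : ℕ} (h : {z | s z x}.ncard = {z | s z y}.ncard)
    (hne : x ≠ y) : ¬ s x y ∧ ¬ s y x :=
  ⟨fun h1 => absurd h (pred_lt hs h1 hne).ne, fun h1 => absurd h (pred_lt hs h1 hne.symm).ne'⟩

theorem coneIso_refl (x : ℕ) : ConeIso s x x := ⟨Equiv.refl _, fun _ _ => Iff.rfl⟩

end Tree

theorem blaws {T : Type} {α : Ordinal.{0}} (r : T → T → Prop) : BLaws (Bs (α := α) r) where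
  ren := by
    intro b π
    cases b with
    | le i j => exact ⟨.le (π i) (π j), fun _ _ _ => Iff.rfl⟩
    | eq i j => exact ⟨.eq (π i) (π j), fun _ _ _ => Iff.rfl⟩
    | cb n e a β u => exact ⟨.cb n e a β (π ∘ u), fun _ _ _ => Iff.rfl⟩
  le := fun i j => ⟨.le i j, fun _ _ _ => Iff.rfl⟩
  eq := fun i j => ⟨.eq i j, fun _ _ _ => Iff.rfl⟩

theorem sameTp_cone {T : Type} {α : Ordinal.{0}} (r : T → T → Prop) {s : ℕ → ℕ → Prop} {k : ℕ}
    {a b : ℕ} {c d : Fin k → ℕ} (h : SameTp (Bs (α := α) r) s a c b d)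
    (hc : ∀ i, s a (c i)) (i : Fin k) : s b (d i) := by
  have h1 := h (.base (.le k i))
  have e : ∀ (v : ℕ) (z : Fin k → ℕ), (Q.base (SB.le k i) : Q (SB T α)).sat (Bs r) s v (W889.SR.ext v z) ↔
      s v (z i) := by
    intro v z
    have e1 : W889.SR.ext v z k = v := by unfold W889.SR.ext; simp
    have e2 : W889.SR.ext v z i = z i := by unfold W889.SR.ext; simp
    show s (W889.SR.ext v z k) (W889.SR.ext v z i) ↔ s v (z i)
    rw [e1, e2]
  exact (e b d).1 (h1.1 ((e a c).2 (hc i)))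

theorem sameTp_zero {T : Type} {α : Ordinal.{0}} (r : T → T → Prop) {s : ℕ → ℕ → Prop} {k : ℕ}
    (hk : k = 0) {a b : ℕ} {c d : Fin k → ℕ} (h : SameTp (Bs (α := α) r) s a c b d) :
    SameTp (Bs (α := α) r) s (k := 0) a Fin.elim0 b Fin.elim0 := by
  subst hk
  have e1 : c = Fin.elim0 := Subsingleton.elim _ _
  have e2 : d = Fin.elim0 := Subsingleton.elim _ _
  rwa [e1, e2] at h

/-- the key equivalence -/
theorem orbit_iff (hSW : SW) (hQ : QLaws) (hI : INV) {T : Type} {α : Ordinal.{0}}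
    {r : T → T → Prop} {s : ℕ → ℕ → Prop} (hs : IsTree s) (hL : L1 α r s) (hN : NM α r s)
    {n m : ℕ} {a : Fin n → ℕ} {F : Fin m → ℕ} {w : Fin n → Fin m} (hF : Function.Injective F)
    (hF1 : ∀ i y, s y (F i) → ∃ j, j ≤ i ∧ F j = y) (hw : ∀ i, F (w i) = a i)
    {k : Fin m → ℕ} {c : (i : Fin m) → Fin (k i) → ℕ} (hc : ∀ i j, s (F i) (c i j))
    (hcase : ∀ i, (k i = 0 ∧ Atomic (Bs (α := α) r) s (F i)) ∨
      ¬ Isol (Bs (α := α) r) s (F i) (c i)) (a' : Fin n → ℕ) :
    (∃ F' : Fin m → ℕ, (SameQf s F s F' ∧ (∀ i y, s y (F' i) → ∃ j, j ≤ i ∧ F' j = y) ∧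
      ∀ i, ∃ c' : Fin (k i) → ℕ, SameTp (Bs (α := α) r) s (F i) (c i) (F' i) c') ∧
      ∀ i, a' i = F' (w i)) ↔ Orbit s a a' := by
  constructor
  · rintro ⟨F', ⟨h1, h2, h3⟩, h4⟩
    have key : ∀ i, ConeIso s (F i) (F' i) := by
      intro i
      by_cases hi : F i = F' i
      · rw [← hi]; exact coneIso_refl _
      · obtain ⟨n1, n2⟩ := incomp hs (ncard_eq hF h1 hF1 h2 i) hi
        obtain ⟨c', hc'⟩ := h3 i
        rcases hcase i with ⟨hk, hat⟩ | hni
        · have h0 := sameTp_zero r hk hc'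
          exact hQ.cone _ _ (blaws r) s _ _ (hs.refl _) (hs.refl _) h0 hat
            (hN _ _ n1 n2 h0 hat)
        · exact absurd (hL _ _ n1 n2 _ _ _ (hc i) (sameTp_cone r hc' (hc i)) hc') hni
    obtain ⟨g, hg⟩ := hSW s hs m F F' hF h1 hF1 h2 key
    refine ⟨g, fun i => ?_⟩
    rw [← hw i, hg, h4]
  · rintro ⟨g, hg⟩
    refine ⟨fun i => g (F i), ⟨⟨fun i j => ?_, fun i j => ?_⟩, ?_, fun i => ?_⟩, fun i => ?_⟩
    · exact g.map_rel_iff.symm
    · exact g.injective.eq_iff.symm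
    · intro i y hy
      have h1 : s (g.symm y) (F i) := by
        rw [← g.map_rel_iff, RelIso.apply_symm_apply]
        exact hy
      obtain ⟨j, hj, hjy⟩ := hF1 i _ h1
      refine ⟨j, hj, ?_⟩
      simp only
      rw [hjy, RelIso.apply_symm_apply]
    · exact ⟨fun j => g (c i j), hI T α r s g _ _ _⟩
    · simp only
      rw [hw, hg]

theorem orb : ORB_stmt := by
  intro hFM hSW hQ hI T α hα r s hs hL hN hTD n a
  classical
  obtain ⟨m, F, w, hF, hF1, hw⟩ := enum' hs a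
  have hchoice : ∀ i : Fin m, ∃ (k : ℕ) (c : Fin k → ℕ), (∀ j, s (F i) (c j)) ∧
      ((k = 0 ∧ Atomic (Bs (α := α) r) s (F i)) ∨ ¬ Isol (Bs (α := α) r) s (F i) c) := by
    intro i
    by_cases hat : Atomic (Bs (α := α) r) s (F i)
    · exact ⟨0, Fin.elim0, fun j => j.elim0, Or.inl ⟨rfl, hat⟩⟩
    · unfold Atomic at hat
      push Not at hat
      obtain ⟨k, c, h1, h2⟩ := hat
      exact ⟨k, c, h1, Or.inr h2⟩
  choose k c hc hcase using hchoice
  have hα1 : (1 : Ordinal.{0}) ≤ α + 1 := le_add_self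
  have h1α : (1 : Ordinal.{0}) < α + 1 := by
    have : (1 : Ordinal.{0}) < 2 := by norm_num
    exact lt_of_lt_of_le this (hα.trans (le_self_add))
  have hαα : α < α + 1 := lt_add_one α
  -- the quantifier-free type
  have D1 : SigDef s (α + 1) (fun f : Fin m → ℕ => SameQf s F s f) := by
    refine sd_qf ?_
    obtain ⟨φ, hφ⟩ := hFM.qf m (fun i j => s (F i) (F j)) (fun i j => F i = F j)
    refine ⟨φ, fun v => (hφ ℕ s v).trans ?_⟩
    unfold SameQf
    exact and_congr (forall_congr' fun i => forall_congr' fun j => Iff.comm)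
      (forall_congr' fun i => forall_congr' fun j => Iff.comm)
  -- closure under predecessors
  have D2 : SigDef s (α + 1) (fun f : Fin m → ℕ => ∀ i y, s y (f i) → ∃ j, j ≤ i ∧ f j = y) := by
    refine sd_lift hFM h1α ?_
    have q : QD s (fun v : Fin (m + 1) → ℕ => ∀ i : Fin m,
        s (v (Fin.natAdd m 0)) (v (Fin.castAdd 1 i)) →
          ∃ j : Fin m, j ≤ i ∧ v (Fin.castAdd 1 j) = v (Fin.natAdd m 0)) :=
      QD.all _ fun i => (QD.le _ _).imp (QD.ex _ fun j => (QD.const _).and (QD.eq _ _))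
    obtain ⟨φ, h1, h2⟩ := pd_all hFM le_rfl (pd_qf (γ := 1) q)
    refine ⟨φ, h1, fun v => (h2 v).trans ?_⟩
    constructor
    · intro h i y hy
      have := h (fun _ => y) i
      simp only [Fin.append_left, Fin.append_right] at this
      exact this hy
    · intro h y i
      simp only [Fin.append_left, Fin.append_right]
      exact h i _
  -- the types
  have D3 : ∀ i : Fin m, SigDef s (α + 1) (fun f : Fin m → ℕ =>
      ∃ c' : Fin (k i) → ℕ, SameTp (Bs (α := α) r) s (F i) (c i) (f i) c') := by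
    intro i
    have h1 := sd_lift hFM hαα (hTD (k i) (F i) (c i))
    have h2 := sd_re hFM (Fin.cons (Fin.castAdd (k i) i) (Fin.natAdd m) :
      Fin (k i + 1) → Fin (m + k i)) h1
    refine sd_congr (sd_ex hFM hα1 h2) fun f => exists_congr fun c' => ?_
    have e1 : (Fin.append f c' ∘ (Fin.cons (Fin.castAdd (k i) i) (Fin.natAdd m) :
        Fin (k i + 1) → Fin (m + k i))) 0 = f i := by
      simp only [Function.comp_apply, Fin.cons_zero, Fin.append_left]
    have e2 : (fun j : Fin (k i) => (Fin.append f c' ∘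
        (Fin.cons (Fin.castAdd (k i) i) (Fin.natAdd m) :
        Fin (k i + 1) → Fin (m + k i))) j.succ) = c' := by
      funext j
      simp only [Function.comp_apply, Fin.cons_succ, Fin.append_right]
    rw [e1, e2]
  have D : SigDef s (α + 1) (fun f : Fin m → ℕ =>
      SameQf s F s f ∧ (∀ i y, s y (f i) → ∃ j, j ≤ i ∧ f j = y) ∧
      ∀ i, ∃ c' : Fin (k i) → ℕ, SameTp (Bs (α := α) r) s (F i) (c i) (f i) c') :=
    sd_and hFM D1 (sd_and hFM D2 (sd_all hFM _ D3))
  have E := sd_re hFM (Fin.natAdd n : Fin m → Fin (n + m)) D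
  have G : SigDef s (α + 1) (fun v : Fin (n + m) → ℕ =>
      ∀ i : Fin n, v (Fin.castAdd m i) = v (Fin.natAdd n (w i))) :=
    sd_qf (QD.all _ fun i => QD.eq _ _)
  refine sd_congr (sd_ex hFM hα1 (sd_and hFM E G)) fun a' => ?_
  rw [← orbit_iff hSW hQ hI hs hL hN hF hF1 hw hc hcase a']
  refine exists_congr fun F' => ?_
  have e1 : (Fin.append a' F' ∘ Fin.natAdd n) = F' := by
    funext i
    simp only [Function.comp_apply, Fin.append_right]
  rw [e1]
  simp only [Fin.append_left, Fin.append_right]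

end Pool.Agent.W882.SR
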